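import Pool.Agent.Work.MP_e5ffe1_gen.Basic
import Pool.Agent.Work.MP_e5ffe1_gen.Calc3

/-! Unique search in ideals, and the tree of nodes over an enumerated family. -/

set_option autoImplicit false

namespace Pool.Agent.Work.MP_e5ffe1_oj

open Pool.Agent.Work.MP_e5ffe1_gen
open Pool.Agent.Work.MP_e5ffe1_h93 (le J TR orc ch ch_of_mem ch_of_notMem le_iff le_refl' le_trans'
  le_J_left le_J_right st)
open Encodable

variable {S : Set (Set ℕ)} {α β : Type} [Primcodable α] [Primcodable β]

theorem decP (hS : Idl S) {p : α → β → Prop} (hp : PS S (fun x : α × β => p x.1 x.2)) :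
    PS S (fun z : α × ℕ => ∃ y : β, encode y = z.2 ∧ p z.1 y) := by
  have h2 := PS.dec hS hp
  have hc : Computable (fun z : α × ℕ => Nat.pair (encode z.1) z.2) :=
    (Primrec₂.natPair.comp (Primrec.encode.comp Primrec.fst) Primrec.snd).to_comp
  refine (PS.comp hS h2 hc).congr (fun z => ?_)
  obtain ⟨x, n⟩ := z
  dsimp only
  constructor
  · rintro ⟨y, hy, h3⟩
    exact ⟨(x, y), by rw [← hy]; rfl, h3⟩
  · rintro ⟨⟨x', y⟩, hy, h3⟩
    have h4 : Nat.pair (encode x') (encode y) = Nat.pair (encode x) n := hy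
    rw [Nat.pair_eq_pair] at h4
    have h5 := Encodable.encode_injective h4.1
    subst h5
    exact ⟨y, h4.2, h3⟩

/-- substitution of a unique witness -/
theorem uq (hS : Idl S) {p q : α → β → Prop} (hp : PS S (fun x : α × β => p x.1 x.2))
    (hq : PS S (fun x : α × β => q x.1 x.2)) (he : ∀ x, ∃ y, p x y)
    (hu : ∀ x y y', p x y → p x y' → y = y') : PS S (fun x => ∃ y, p x y ∧ q x y) := by
  classical
  have h1 := decP hS hp
  have h2 := decP hS hq
  have hex : ∀ x : α, ∃ n : ℕ, ∃ y : β, encode y = n ∧ p x y := by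
    intro x
    obtain ⟨y, hy⟩ := he x
    exact ⟨encode y, y, rfl, hy⟩
  refine (PS.mu hS (p := fun x n => ∃ y : β, encode y = n ∧ p x y)
    (q := fun x n => ∃ y : β, encode y = n ∧ q x y) h1 h2 hex).congr (fun x => ?_)
  obtain ⟨y, hy, hpy⟩ := Nat.find_spec (hex x)
  constructor
  · rintro ⟨y', h3, h4⟩
    have h5 := hu x y y' hpy h3
    subst h5
    exact ⟨y, hy, h4⟩
  · rintro ⟨y', h3, h4⟩
    have h5 : y = y' := Encodable.encode_injective (hy.trans h3.symm)
    subst h5
    exact ⟨y, hpy, h4⟩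

theorem J_le {X Z Y : Set ℕ} (hX : le X Y) (hZ : le Z Y) : le (J X Z) Y := by
  rw [le_iff] at hX hZ ⊢
  have hd : TR (orc Y) (fun n => n / 2) := TR_of_computable
    (Primrec.nat_div.comp Primrec.id (Primrec.const 2)).to_comp
  have hm : TR (orc Y) (fun n => n % 2) := TR_of_computable
    (Primrec.nat_mod.comp Primrec.id (Primrec.const 2)).to_comp
  have hg : TR (orc Y) (fun m => (1 - (Nat.unpair m).2) * (Nat.unpair (Nat.unpair m).1).1 +
      (Nat.unpair m).2 * (Nat.unpair (Nat.unpair m).1).2) := TR_of_computable (by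
    have a1 : Primrec (fun m : ℕ => (Nat.unpair m).2) := Primrec.snd.comp Primrec.unpair
    have a2 : Primrec (fun m : ℕ => Nat.unpair (Nat.unpair m).1) :=
      Primrec.unpair.comp (Primrec.fst.comp Primrec.unpair)
    exact (Primrec.nat_add.comp
      (Primrec.nat_mul.comp (Primrec.nat_sub.comp (Primrec.const 1) a1) (Primrec.fst.comp a2))
      (Primrec.nat_mul.comp a1 (Primrec.snd.comp a2))).to_comp)
  refine (hg.comp (((hX.comp hd).pair (hZ.comp hd)).pair hm)).of_eq (fun n => ?_)
  simp only [Nat.unpair_pair]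
  rcases Nat.even_or_odd n with he | ho
  · have h1 : n % 2 = 0 := Nat.even_iff.1 he
    have h2 : ¬ Odd n := by rw [Nat.not_odd_iff_even]; exact he
    rw [h1]
    by_cases h3 : n / 2 ∈ X
    · rw [ch_of_mem h3, ch_of_mem (show n ∈ J X Z from Or.inl ⟨he, h3⟩)]
      simp
    · rw [ch_of_notMem h3, ch_of_notMem (show n ∉ J X Z from fun h => by
        rcases h with h | h
        · exact h3 h.2
        · exact h2 h.1)]
      simp
  · have h1 : n % 2 = 1 := Nat.odd_iff.1 ho
    have h2 : ¬ Even n := by rw [Nat.not_even_iff_odd]; exact ho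
    rw [h1]
    by_cases h3 : n / 2 ∈ Z
    · rw [ch_of_mem h3, ch_of_mem (show n ∈ J X Z from Or.inr ⟨ho, h3⟩)]
      simp
    · rw [ch_of_notMem h3, ch_of_notMem (show n ∉ J X Z from fun h => by
        rcases h with h | h
        · exact h2 h.1
        · exact h3 h.2)]
      simp

/-- lower cones are ideals -/
theorem idl_cone (Y : Set ℕ) : Idl {X | le X Y} where
  ne := ⟨Y, le_refl' Y⟩
  tr := fun _ hX _ hZ => le_trans' hZ hX
  join := fun _ hX _ hZ => J_le hX hZ

end Pool.Agent.Work.MP_e5ffe1_oj
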