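import Pool.Agent.Work.MP_e5ffe1_oj.Reals

/-! Computability of the branches. -/

set_option autoImplicit false

namespace Pool.Agent.Work.MP_e5ffe1_oj

open Pool.Agent.Work.MP_e5ffe1_gen
open Pool.Agent.Work.MP_e5ffe1_h93 (le J st rs le_refl' le_trans' le_J_left le_J_right)
open Encodable

/-- the number of a string -/
def ix (σ : Str) : ℕ := σ.foldl (fun a b => 2 * a + (if b then 1 else 0)) 0

theorem ix_prim : Primrec ix := by
  refine Primrec.list_foldl (f := fun σ : Str => σ) (g := fun _ => 0)
    (h := fun (_ : Str) (p : ℕ × Bool) => 2 * p.1 + (if p.2 then 1 else 0))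
    Primrec.id (Primrec.const 0) ?_
  have h1 : Primrec (fun z : Str × ℕ × Bool => 2 * z.2.1) :=
    Primrec.nat_mul.comp (Primrec.const 2) (Primrec.fst.comp Primrec.snd)
  have h2 : Primrec (fun z : Str × ℕ × Bool => if z.2.2 = true then 1 else 0) :=
    Primrec.ite (PrimrecRel.comp Primrec.eq (Primrec.snd.comp Primrec.snd) (Primrec.const true))
      (Primrec.const 1) (Primrec.const 0)
  exact (Primrec.nat_add.comp h1 h2).to₂

/-- the real which begins with `σ` -/
def ext (σ : Str) (j : ℕ) : Bool := σ.getD j false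

theorem rs_congr {x y : ℕ → Bool} (n : ℕ) (h : ∀ j < n, x j = y j) : rs x n = rs y n := by
  induction n with
  | zero => rfl
  | succ n ih =>
    have e1 : rs x (n + 1) = 2 * rs x n + (if x n then 1 else 0) := rfl
    have e2 : rs y (n + 1) = 2 * rs y n + (if y n then 1 else 0) := rfl
    rw [e1, e2, ih (fun j hj => h j (by omega)), h n (Nat.lt_succ_self n)]

theorem ix_eq (σ : Str) : ix σ = rs (ext σ) σ.length := by
  induction σ using List.reverseRecOn with
  | nil => rfl
  | append_singleton σ b ih =>
    have e1 : ix (σ ++ [b]) = 2 * ix σ + (if b then 1 else 0) := by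
      unfold ix
      rw [List.foldl_append]
      rfl
    have e2 : (σ ++ [b]).length = σ.length + 1 := by
      rw [List.length_append, List.length_singleton]
    have e3 : rs (ext (σ ++ [b])) (σ.length + 1) = 2 * rs (ext (σ ++ [b])) σ.length +
        (if ext (σ ++ [b]) σ.length then 1 else 0) := rfl
    have e4 : ext (σ ++ [b]) σ.length = b := by
      unfold ext
      rw [List.getD_append_right _ _ _ _ le_rfl, Nat.sub_self]
      rfl
    have e5 : rs (ext (σ ++ [b])) σ.length = rs (ext σ) σ.length := by
      apply rs_congr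
      intro j hj
      unfold ext
      exact List.getD_append _ _ _ _ hj
    rw [e1, e2, e3, e4, e5, ih]

theorem ix_range (x : ℕ → Bool) (n : ℕ) : ix ((List.range n).map x) = rs x n := by
  rw [ix_eq, List.length_map, List.length_range]
  apply rs_congr
  intro j hj
  unfold ext
  rw [List.getD_eq_getElem?_getD, List.getElem?_map, List.getElem?_range hj]
  rfl

variable {T : Set (Set ℕ)} {E : Set ℕ}

theorem getD_PS (hT : Idl T) {α : Type} [Primcodable α] {f : α → Str} {h : α → ℕ}
    (hf : Computable f) (hh : Computable h) : PS T (fun x => (f x).getD (h x) false = true) := by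
  have hget : Primrec₂ (fun (s : Str) (i : ℕ) => s.getD i false) := Primrec.list_getD false
  exact PS.computable hT (hget.to_comp.comp hf hh)

/-- the string is an initial piece of a real in `T` -/
theorem pre'_PS (hT : Idl T) {x : ℕ → Bool} (hx : st x ∈ T) :
    PS T (fun s : Str => ∀ j < s.length, (s.getD j false = true ↔ j ∈ st x)) := by
  have h1 : PS T (fun z : Str × ℕ => (z.1.getD z.2 false = true ↔ z.2 ∈ st x)) :=
    PS.iff hT (getD_PS hT Computable.fst Computable.snd)
      (PS.comp hT (PS.mem hx) Computable.snd)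
  exact PS.ball hT (p := fun (s : Str) j => (s.getD j false = true ↔ j ∈ st x)) h1
    Primrec.list_length.to_comp

theorem pre'_iff {x : ℕ → Bool} {s : Str} :
    (∀ j < s.length, (s.getD j false = true ↔ j ∈ st x)) ↔
      ∀ j < s.length, s.getD j false = x j := by
  constructor
  · intro h j hj
    have h1 := h j hj
    have h2 : j ∈ st x ↔ x j = true := Iff.rfl
    rw [h2] at h1
    exact Bool.eq_iff_iff.2 h1
  · intro h j hj
    rw [h j hj]
    exact Iff.rfl

/-- the level of the tree, from its graph -/
theorem lev_PS (hT : Idl T) {C : Set ℕ} (hC : C ∈ T)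
    (hC' : ∀ x : ℕ × List Str, x.2 = sq E x.1 ↔ encode x ∈ C) :
    PS T (fun x : ℕ × List Str => x.2 = sq E x.1) := ⟨C, hC, hC'⟩

/-- the branch `gg E x` is computable from `x` and `C` -/
theorem gg_mem (hT : Idl T) {C : Set ℕ} (hC : C ∈ T)
    (hC' : ∀ x : ℕ × List Str, x.2 = sq E x.1 ↔ encode x ∈ C) {x : ℕ → Bool} (hx : st x ∈ T) :
    st (gg E x) ∈ T := by
  have a1 : Computable (fun z : ℕ × Str × List Str => z.1) := Computable.fst
  have a2 : Computable (fun z : ℕ × Str × List Str => z.2.1) :=
    Computable.fst.comp Computable.snd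
  have a3 : Computable (fun z : ℕ × Str × List Str => z.2.2) :=
    Computable.snd.comp Computable.snd
  have h1 : PS T (fun z : ℕ × Str × List Str => z.2.1.length = z.1 + 1) :=
    PS.eq hT (Primrec.list_length.to_comp.comp a2) (Primrec.succ.to_comp.comp a1)
  have h2 : PS T (fun z : ℕ × Str × List Str =>
      ∀ j < z.2.1.length, (z.2.1.getD j false = true ↔ j ∈ st x)) :=
    PS.comp hT (pre'_PS hT hx) a2
  have h3 : PS T (fun z : ℕ × Str × List Str => z.2.2 = sq E (z.1 + 1)) :=
    PS.comp hT (lev_PS hT hC hC') ((Primrec.succ.to_comp.comp a1).pair a3)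
  have h4 : PS T (fun z : ℕ × Str × List Str =>
      (nod z.2.2 (ix z.2.1)).getD z.1 false = true) :=
    getD_PS hT (nod_prim.to_comp.comp a3 (ix_prim.to_comp.comp a2)) a1
  have h5 := uq hT (p := fun (j : ℕ) (y : Str × List Str) => y.1.length = j + 1 ∧
    (∀ i < y.1.length, (y.1.getD i false = true ↔ i ∈ st x)) ∧ y.2 = sq E (j + 1))
    (q := fun (j : ℕ) (y : Str × List Str) => (nod y.2 (ix y.1)).getD j false = true)
    (PS.and hT h1 (PS.and hT h2 h3)) h4
    (by
      intro j
      refine ⟨((List.range (j + 1)).map x, sq E (j + 1)), by simp, ?_, rfl⟩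
      rw [pre'_iff]
      intro i hi
      rw [List.length_map, List.length_range] at hi
      rw [List.getD_eq_getElem?_getD, List.getElem?_map, List.getElem?_range hi]
      rfl)
    (by
      rintro j ⟨σ, L⟩ ⟨σ', L'⟩ ⟨b1, b2, b3⟩ ⟨b4, b5, b6⟩
      rw [pre'_iff] at b2 b5
      dsimp only at b1 b2 b3 b4 b5 b6
      refine Prod.ext ?_ (b3.trans b6.symm)
      apply List.ext_getElem
      · exact b1.trans b4.symm
      · intro i hi hi'
        have c1 := b2 i hi
        have c2 := b5 i hi'
        rw [List.getD_eq_getElem _ _ hi] at c1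
        rw [List.getD_eq_getElem _ _ hi'] at c2
        dsimp only
        rw [c1, c2])
  have h6 := PS.toSet hT h5
  have h7 : {j | ∃ y : Str × List Str, (y.1.length = j + 1 ∧
      (∀ i < y.1.length, (y.1.getD i false = true ↔ i ∈ st x)) ∧ y.2 = sq E (j + 1)) ∧
      (nod y.2 (ix y.1)).getD j false = true} = st (gg E x) := by
    ext j
    constructor
    · rintro ⟨⟨σ, L⟩, ⟨b1, b2, b3⟩, b4⟩
      rw [pre'_iff] at b2
      dsimp only at b1 b2 b3 b4
      have c1 : ix σ = rs x (j + 1) := by
        rw [ix_eq, b1]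
        apply rs_congr
        intro i hi
        exact b2 i (by rw [b1]; exact hi)
      rw [b3, c1] at b4
      exact b4
    · intro hj
      refine ⟨((List.range (j + 1)).map x, sq E (j + 1)), ⟨by simp, ?_, rfl⟩, ?_⟩
      · rw [pre'_iff]
        intro i hi
        rw [List.length_map, List.length_range] at hi
        rw [List.getD_eq_getElem?_getD, List.getElem?_map, List.getElem?_range hi]
        rfl
      · dsimp only
        rw [ix_range]
        exact hj
  rw [h7] at h6
  exact h6

/-- `x` is computable from the branch `gg E x` and `C` -/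
theorem mem_of_gg (hT : Idl T) {C : Set ℕ} (hC : C ∈ T)
    (hC' : ∀ x : ℕ × List Str, x.2 = sq E x.1 ↔ encode x ∈ C) {x : ℕ → Bool}
    (hx : st (gg E x) ∈ T) : st x ∈ T := by
  have a1 : Computable (fun z : ℕ × Str × List Str => z.1) := Computable.fst
  have a2 : Computable (fun z : ℕ × Str × List Str => z.2.1) :=
    Computable.fst.comp Computable.snd
  have a3 : Computable (fun z : ℕ × Str × List Str => z.2.2) :=
    Computable.snd.comp Computable.snd
  have h1 : PS T (fun z : ℕ × Str × List Str => z.2.1.length = z.1 + 1) :=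
    PS.eq hT (Primrec.list_length.to_comp.comp a2) (Primrec.succ.to_comp.comp a1)
  have h2 : PS T (fun z : ℕ × Str × List Str => ∀ j < (nod z.2.2 (ix z.2.1)).length,
      ((nod z.2.2 (ix z.2.1)).getD j false = true ↔ j ∈ st (gg E x))) :=
    PS.comp hT (pre'_PS hT hx) (nod_prim.to_comp.comp a3 (ix_prim.to_comp.comp a2))
  have h3 : PS T (fun z : ℕ × Str × List Str => z.2.2 = sq E (z.1 + 1)) :=
    PS.comp hT (lev_PS hT hC hC') ((Primrec.succ.to_comp.comp a1).pair a3)
  have h4 : PS T (fun z : ℕ × Str × List Str => z.2.1.getD z.1 false = true) :=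
    getD_PS hT a2 a1
  have hnod : ∀ (j : ℕ) (σ : Str), σ.length = j + 1 →
      nod (sq E (j + 1)) (ix σ) = nd E (ext σ) (j + 1) := by
    intro j σ hσ
    unfold nd
    rw [ix_eq, hσ]
  have hself : ∀ j : ℕ, ∀ i < (nd E x (j + 1)).length, (nd E x (j + 1)).getD i false = gg E x i :=
    fun j i hi => nd_getD E x (j + 1) i hi
  have hx0 : ∀ j : ℕ, nod (sq E (j + 1)) (ix ((List.range (j + 1)).map x)) = nd E x (j + 1) := by
    intro j
    rw [ix_range]
    rfl
  have hdet : ∀ (j : ℕ) (σ : Str), σ.length = j + 1 →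
      (∀ i < (nod (sq E (j + 1)) (ix σ)).length,
        ((nod (sq E (j + 1)) (ix σ)).getD i false = true ↔ i ∈ st (gg E x))) →
      ∀ i < j + 1, σ.getD i false = x i := by
    intro j σ hσ h
    rw [hnod j σ hσ, pre'_iff] at h
    exact nd_inj E (j + 1) h (hself j)
  have h5 := uq hT (p := fun (j : ℕ) (y : Str × List Str) => y.1.length = j + 1 ∧
    (∀ i < (nod y.2 (ix y.1)).length,
      ((nod y.2 (ix y.1)).getD i false = true ↔ i ∈ st (gg E x))) ∧ y.2 = sq E (j + 1))
    (q := fun (j : ℕ) (y : Str × List Str) => y.1.getD j false = true)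
    (PS.and hT h1 (PS.and hT h2 h3)) h4
    (by
      intro j
      refine ⟨((List.range (j + 1)).map x, sq E (j + 1)), by simp, ?_, rfl⟩
      dsimp only
      rw [pre'_iff, hx0 j]
      exact hself j)
    (by
      rintro j ⟨σ, L⟩ ⟨σ', L'⟩ ⟨b1, b2, b3⟩ ⟨b4, b5, b6⟩
      dsimp only at b1 b2 b3 b4 b5 b6
      refine Prod.ext ?_ (b3.trans b6.symm)
      rw [b3] at b2
      rw [b6] at b5
      have d1 := hdet j σ b1 b2
      have d2 := hdet j σ' b4 b5
      apply List.ext_getElem
      · exact b1.trans b4.symm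
      · intro i hi hi'
        have c1 := d1 i (by rw [← b1]; exact hi)
        have c2 := d2 i (by rw [← b4]; exact hi')
        rw [List.getD_eq_getElem _ _ hi] at c1
        rw [List.getD_eq_getElem _ _ hi'] at c2
        dsimp only
        rw [c1, c2])
  have h6 := PS.toSet hT h5
  have h7 : {j | ∃ y : Str × List Str, (y.1.length = j + 1 ∧
      (∀ i < (nod y.2 (ix y.1)).length,
        ((nod y.2 (ix y.1)).getD i false = true ↔ i ∈ st (gg E x))) ∧ y.2 = sq E (j + 1)) ∧
      y.1.getD j false = true} = st x := by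
    ext j
    constructor
    · rintro ⟨⟨σ, L⟩, ⟨b1, b2, b3⟩, b4⟩
      dsimp only at b1 b2 b3 b4
      rw [b3] at b2
      have d1 := hdet j σ b1 b2 j (Nat.lt_succ_self j)
      rw [d1] at b4
      exact b4
    · intro hj
      refine ⟨((List.range (j + 1)).map x, sq E (j + 1)), ⟨by simp, ?_, rfl⟩, ?_⟩
      · dsimp only
        rw [pre'_iff, hx0 j]
        exact hself j
      · dsimp only
        rw [List.getD_eq_getElem?_getD, List.getElem?_map,
          List.getElem?_range (Nat.lt_succ_self j)]
        exact hj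
  rw [h7] at h6
  exact h6

end Pool.Agent.Work.MP_e5ffe1_oj
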