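import Pool.Agent.Work.MP_e5ffe1_oj.Tree

/-! The tree of nodes is given by a member of `S`. -/

set_option autoImplicit false

namespace Pool.Agent.Work.MP_e5ffe1_oj

open Pool.Agent.Work.MP_e5ffe1_gen
open Pool.Agent.Work.MP_e5ffe1_h93 (le J st)
open Encodable

theorem nod_prim : Primrec₂ nod := by
  have h : Primrec₂ (fun (L : List Str) (i : ℕ) => L.getD i []) := Primrec.list_getD []
  exact h

variable {S : Set (Set ℕ)} {E : Set ℕ}

theorem mem_PS (hS : Cl S) (hE : E ∈ S) :
    PS S (fun x : ℕ × List Str => Nat.pair x.1 (encode x.2) ∈ E) :=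
  (PS.encode_comp hS.toIdl hE (f := fun x : ℕ × List Str => (x.1, x.2))
    (Computable.fst.pair Computable.snd))

theorem pre_PS (hS : Cl S) : PS S (fun x : Str × Str => x.1 <+: x.2) :=
  PS.prefix_ hS.toIdl Computable.fst Computable.snd

theorem den_PS (hS : Cl S) (hE : E ∈ S) : PS S (fun x : ℕ × ℕ => Den E x.1 x.2) := by
  have hS' := hS.toIdl
  have h1 : PS S (fun z : ((ℕ × ℕ) × List Str) × List Str =>
      List.Forall₂ (fun p q => p <+: q) z.1.2 z.2) := by
    have h0 : PS S (fun x : (((ℕ × ℕ) × List Str) × List Str) × Str × Str => x.2.1 <+: x.2.2) :=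
      PS.comp hS' (pre_PS hS) Computable.snd
    exact PS.forall₂ hS' (R := fun _ p q => p <+: q) h0
      (Computable.snd.comp Computable.fst) Computable.snd
  have h2 : PS S (fun z : ((ℕ × ℕ) × List Str) × List Str => Nat.pair z.1.1.1 (encode z.2) ∈ E) :=
    PS.comp hS' (mem_PS hS hE)
      ((Computable.fst.comp (Computable.fst.comp Computable.fst)).pair Computable.snd)
  have h3 := PS.ex hS (p := fun (z : (ℕ × ℕ) × List Str) (ν : List Str) =>
    List.Forall₂ (fun p q => p <+: q) z.2 ν ∧ Nat.pair z.1.1 (encode ν) ∈ E) (PS.and hS' h1 h2)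
  have h4 : PS S (fun z : (ℕ × ℕ) × List Str => z.2.length = z.1.2) :=
    PS.eq hS' (Primrec.list_length.to_comp.comp Computable.snd)
      (Computable.snd.comp Computable.fst)
  exact PS.all hS (p := fun (x : ℕ × ℕ) (μ : List Str) => μ.length = x.2 →
    ∃ ν : List Str, List.Forall₂ (fun p q => p <+: q) μ ν ∧ Nat.pair x.1 (encode ν) ∈ E)
    (PS.imp hS' h4 h3)

theorem met_PS (hS : Cl S) (hE : E ∈ S) :
    PS S (fun x : ℕ × List ℕ × List Str => Met E x.1 x.2.1 x.2.2) := by
  have hS' := hS.toIdl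
  have hmap : Computable (fun z : (ℕ × List ℕ × List Str) × List Str =>
      z.1.2.1.map (nod z.1.2.2)) := by
    refine (Primrec.list_map (f := fun z : (ℕ × List ℕ × List Str) × List Str => z.1.2.1)
      (g := fun z i => nod z.1.2.2 i) ?_ ?_).to_comp
    · exact Primrec.fst.comp (Primrec.snd.comp Primrec.fst)
    · exact (nod_prim.comp (Primrec.snd.comp (Primrec.snd.comp (Primrec.fst.comp Primrec.fst)))
        Primrec.snd).to₂
  have h1 : PS S (fun z : (ℕ × List ℕ × List Str) × List Str =>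
      List.Forall₂ (fun p q => p <+: q) z.2 (z.1.2.1.map (nod z.1.2.2))) := by
    have h0 : PS S (fun x : ((ℕ × List ℕ × List Str) × List Str) × Str × Str =>
        x.2.1 <+: x.2.2) := PS.comp hS' (pre_PS hS) Computable.snd
    exact PS.forall₂ hS' (R := fun _ p q => p <+: q) h0 Computable.snd hmap
  have h2 : PS S (fun z : (ℕ × List ℕ × List Str) × List Str =>
      Nat.pair z.1.1 (encode z.2) ∈ E) :=
    PS.comp hS' (mem_PS hS hE) ((Computable.fst.comp Computable.fst).pair Computable.snd)
  exact PS.ex hS (p := fun (x : ℕ × List ℕ × List Str) (ν : List Str) =>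
    List.Forall₂ (fun p q => p <+: q) ν (x.2.1.map (nod x.2.2)) ∧
      Nat.pair x.1 (encode ν) ∈ E) (PS.and hS' h1 h2)

theorem req_PS (hS : Cl S) (hE : E ∈ S) : PS S (fun x : ℕ × List Str => Req E x.1 x.2) := by
  have hS' := hS.toIdl
  have hi : Computable (fun z : (ℕ × List Str) × ℕ × List ℕ => z.2.1) :=
    Computable.fst.comp Computable.snd
  have ht : Computable (fun z : (ℕ × List Str) × ℕ × List ℕ => z.2.2) :=
    Computable.snd.comp Computable.snd
  have hn : Computable (fun z : (ℕ × List Str) × ℕ × List ℕ => z.1.1) :=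
    Computable.fst.comp Computable.fst
  have hL : Computable (fun z : (ℕ × List Str) × ℕ × List ℕ => z.1.2) :=
    Computable.snd.comp Computable.fst
  have hle : PS S (fun x : ℕ × ℕ => x.1 ≤ x.2) :=
    PS.primrec hS' (PrimrecRel.comp Primrec.nat_le Primrec.fst Primrec.snd)
  have hlt : PS S (fun x : ℕ × ℕ => x.1 < x.2) :=
    PS.primrec hS' (PrimrecRel.comp Primrec.nat_lt Primrec.fst Primrec.snd)
  have h1 : PS S (fun z : (ℕ × List Str) × ℕ × List ℕ => z.2.1 ≤ z.1.1) :=
    PS.comp hS' hle (hi.pair hn)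
  have h2 : PS S (fun z : (ℕ × List Str) × ℕ × List ℕ => z.2.2.Nodup) := PS.nodup hS' ht
  have h3 : PS S (fun z : (ℕ × List Str) × ℕ × List ℕ => ∀ j ∈ z.2.2, j < z.1.2.length) := by
    refine PS.forallMem hS' (p := fun (z : (ℕ × List Str) × ℕ × List ℕ) j => j < z.1.2.length)
      ?_ ht
    exact PS.comp hS' hlt (Computable.snd.pair
      (Primrec.list_length.to_comp.comp (hL.comp Computable.fst)))
  have h4 : PS S (fun z : (ℕ × List Str) × ℕ × List ℕ => Den E z.2.1 z.2.2.length) :=
    PS.comp hS' (den_PS hS hE) (hi.pair (Primrec.list_length.to_comp.comp ht))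
  have h5 : PS S (fun z : (ℕ × List Str) × ℕ × List ℕ => Met E z.2.1 z.2.2 z.1.2) :=
    PS.comp hS' (met_PS hS hE) (hi.pair (ht.pair hL))
  have h6 := PS.all hS (p := fun (x : ℕ × List Str) (y : ℕ × List ℕ) => y.1 ≤ x.1 → y.2.Nodup →
    (∀ j ∈ y.2, j < x.2.length) → Den E y.1 y.2.length → Met E y.1 y.2 x.2)
    (PS.imp hS' h1 (PS.imp hS' h2 (PS.imp hS' h3 (PS.imp hS' h4 h5))))
  exact h6.congr (fun x => ⟨fun h y => h y.1 y.2, fun h i t => h (i, t)⟩)

theorem spl_PS (hS : Cl S) : PS S (fun x : List Str × List Str => Spl x.1 x.2) := by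
  have hS' := hS.toIdl
  have hlen1 : Computable (fun x : List Str × List Str => x.1.length) :=
    Primrec.list_length.to_comp.comp Computable.fst
  have hlen2 : Computable (fun x : List Str × List Str => x.2.length) :=
    Primrec.list_length.to_comp.comp Computable.snd
  have h1 : PS S (fun x : List Str × List Str => x.2.length = 2 * x.1.length) :=
    PS.eq hS' hlen2 (Primrec.nat_mul.to_comp.comp (Computable.const 2) hlen1)
  have hA : ∀ b : Bool, Computable (fun z : (List Str × List Str) × ℕ => nod z.1.1 z.2 ++ [b]) :=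
    fun b => (Primrec.list_append.comp (nod_prim.comp (Primrec.fst.comp Primrec.fst) Primrec.snd)
      (Primrec.const [b])).to_comp
  have hB : Computable (fun z : (List Str × List Str) × ℕ => nod z.1.2 (2 * z.2)) :=
    (nod_prim.comp (Primrec.snd.comp Primrec.fst)
      (Primrec.nat_mul.comp (Primrec.const 2) Primrec.snd)).to_comp
  have hB' : Computable (fun z : (List Str × List Str) × ℕ => nod z.1.2 (2 * z.2 + 1)) :=
    (nod_prim.comp (Primrec.snd.comp Primrec.fst)
      (Primrec.succ.comp (Primrec.nat_mul.comp (Primrec.const 2) Primrec.snd))).to_comp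
  have h2 : PS S (fun z : (List Str × List Str) × ℕ =>
      nod z.1.1 z.2 ++ [false] <+: nod z.1.2 (2 * z.2) ∧
        nod z.1.1 z.2 ++ [true] <+: nod z.1.2 (2 * z.2 + 1)) :=
    PS.and hS' (PS.prefix_ hS' (hA false) hB) (PS.prefix_ hS' (hA true) hB')
  exact PS.and hS' h1 (PS.ball hS' (p := fun (x : List Str × List Str) i =>
    nod x.1 i ++ [false] <+: nod x.2 (2 * i) ∧ nod x.1 i ++ [true] <+: nod x.2 (2 * i + 1)) h2 hlen1)

theorem nx_PS (hS : Cl S) (hE : E ∈ S) :
    PS S (fun x : ℕ × List Str × List Str => Nx E x.1 x.2.1 x.2.2) :=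
  PS.and hS.toIdl (PS.comp hS.toIdl (spl_PS hS) Computable.snd)
    (PS.comp hS.toIdl (req_PS hS hE) (Computable.fst.pair (Computable.snd.comp Computable.snd)))

theorem n1_PS (hS : Cl S) (hE : E ∈ S) :
    PS S (fun x : ℕ × List Str × List Str => N1 E x.1 x.2.1 x.2.2) := by
  have hS' := hS.toIdl
  have hle : PS S (fun x : ℕ × ℕ => x.1 ≤ x.2) :=
    PS.primrec hS' (PrimrecRel.comp Primrec.nat_le Primrec.fst Primrec.snd)
  have h1 : PS S (fun z : (ℕ × List Str × List Str) × List Str => Nx E z.1.1 z.1.2.1 z.2) :=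
    PS.comp hS' (nx_PS hS hE) ((Computable.fst.comp Computable.fst).pair
      ((Computable.fst.comp (Computable.snd.comp Computable.fst)).pair Computable.snd))
  have h2 : PS S (fun z : (ℕ × List Str × List Str) × List Str =>
      encode z.1.2.2 ≤ encode z.2) :=
    PS.comp hS' hle ((Computable.encode.comp (Computable.snd.comp (Computable.snd.comp
      Computable.fst))).pair (Computable.encode.comp Computable.snd))
  exact PS.and hS' (nx_PS hS hE) (PS.all hS
    (p := fun (x : ℕ × List Str × List Str) L'' => Nx E x.1 x.2.1 L'' →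
      encode x.2.2 ≤ encode L'') (PS.imp hS' h1 h2))

/-- the graph of the sequence of the levels -/
theorem sq_PS (hS : Cl S) (hE : E ∈ S) : PS S (fun x : ℕ × List Str => x.2 = sq E x.1) := by
  have hS' := hS.toIdl
  have hget : Primrec₂ (fun (s : List (List Str)) (i : ℕ) => s.getD i []) := Primrec.list_getD []
  have hs : Primrec (fun z : (ℕ × List Str) × List (List Str) => z.2) := Primrec.snd
  have hn : Primrec (fun z : (ℕ × List Str) × List (List Str) => z.1.1) :=
    Primrec.fst.comp Primrec.fst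
  have h1 : PS S (fun z : (ℕ × List Str) × List (List Str) => z.2.length = z.1.1 + 1) :=
    PS.eq hS' (Primrec.list_length.comp hs).to_comp (Primrec.succ.comp hn).to_comp
  have h2 : PS S (fun z : (ℕ × List Str) × List (List Str) => z.2.getD 0 [] = [[]]) :=
    PS.eq hS' (hget.comp hs (Primrec.const 0)).to_comp (Computable.const [[]])
  have h3 : PS S (fun z : (ℕ × List Str) × List (List Str) => z.2.getD z.1.1 [] = z.1.2) :=
    PS.eq hS' (hget.comp hs hn).to_comp (Primrec.snd.comp Primrec.fst).to_comp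
  have h4 : PS S (fun w : ((ℕ × List Str) × List (List Str)) × ℕ =>
      N1 E w.2 (w.1.2.getD w.2 []) (w.1.2.getD (w.2 + 1) [])) :=
    PS.comp hS' (n1_PS hS hE) (Computable.snd.pair
      ((hget.comp (Primrec.snd.comp Primrec.fst) Primrec.snd).to_comp.pair
        (hget.comp (Primrec.snd.comp Primrec.fst) (Primrec.succ.comp Primrec.snd)).to_comp))
  have h5 := PS.ball hS' (p := fun (z : (ℕ × List Str) × List (List Str)) m =>
    N1 E m (z.2.getD m []) (z.2.getD (m + 1) [])) h4 (f := fun z => z.1.1) hn.to_comp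
  have h6 := PS.ex hS (p := fun (x : ℕ × List Str) (s : List (List Str)) =>
    s.length = x.1 + 1 ∧ s.getD 0 [] = [[]] ∧ s.getD x.1 [] = x.2 ∧
      ∀ m < x.1, N1 E m (s.getD m []) (s.getD (m + 1) []))
    (PS.and hS' h1 (PS.and hS' h2 (PS.and hS' h3 h5)))
  exact h6.congr (fun x => sq_iff E x.1 x.2)

end Pool.Agent.Work.MP_e5ffe1_oj
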