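import Pool.Agent.Work.MP_e5ffe1_oj.Main

set_option autoImplicit false

namespace Pool.Agent.Results.MP_e5ffe1_lc.EnumeratedIdeals

open Pool.Agent.Work.MP_e5ffe1_oj

/-- Let `S` be a family of sets of natural numbers, of any cardinality, closed under Turing
reducibility, join and projection, and let `E ∈ S` be a set whose columns form a family closed under
Turing reducibility, join and projection. Then there is a nonstandard model of PA (given as a
discretely ordered ring `R` with definable induction) whose standard system contains all columns of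
`E` and is contained in `S`, and there is a `C ∈ S` modulo which every member of `S` is Turing
equivalent to a member of the standard system. -/
theorem result :
    ∀ S : Set (Set ℕ), S.Nonempty →
      (∀ X ∈ S, ∀ Y : Set ℕ,
        TuringReducible (fun n => Part.some (Y.indicator (fun _ => (1 : ℕ)) n))
          (fun n => Part.some (X.indicator (fun _ => (1 : ℕ)) n)) → Y ∈ S) →
      (∀ X ∈ S, ∀ Y ∈ S, {m : ℕ | (Even m ∧ m / 2 ∈ X) ∨ (Odd m ∧ m / 2 ∈ Y)} ∈ S) →
      (∀ X ∈ S, {m : ℕ | ∃ n : ℕ, Nat.pair m n ∈ X} ∈ S) →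
      ∀ E ∈ S,
      (∀ (i : ℕ) (Y : Set ℕ),
        TuringReducible (fun n => Part.some (Y.indicator (fun _ => (1 : ℕ)) n))
          (fun n => Part.some
            (({m : ℕ | Nat.pair i m ∈ E} : Set ℕ).indicator (fun _ => (1 : ℕ)) n)) →
        ∃ k : ℕ, Y = {m : ℕ | Nat.pair k m ∈ E}) →
      (∀ i j : ℕ, ∃ k : ℕ,
        {m : ℕ | (Even m ∧ Nat.pair i (m / 2) ∈ E) ∨ (Odd m ∧ Nat.pair j (m / 2) ∈ E)} =
          {m : ℕ | Nat.pair k m ∈ E}) →
      (∀ i : ℕ, ∃ k : ℕ,
        {m : ℕ | ∃ n : ℕ, Nat.pair i (Nat.pair m n) ∈ E} = {m : ℕ | Nat.pair k m ∈ E}) →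
      ∃ (R : Type) (_ : CommRing R) (_ : LinearOrder R) (_ : IsStrictOrderedRing R)
        (_ : FirstOrder.Ring.CompatibleRing R)
        (_ : FirstOrder.Language.order.Structure R)
        (_ : FirstOrder.Language.OrderedStructure FirstOrder.Language.order R),
        (∀ x : R, 0 < x → 1 ≤ x) ∧
        (∀ D : Set (Fin 1 → R),
          (Set.univ : Set R).Definable
            (FirstOrder.Language.sum FirstOrder.Language.ring FirstOrder.Language.order) D →
          (fun _ : Fin 1 => (0 : R)) ∈ D →
          (∀ x : R, 0 ≤ x → (fun _ : Fin 1 => x) ∈ D → (fun _ : Fin 1 => x + 1) ∈ D) →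
          ∀ x : R, 0 ≤ x → (fun _ : Fin 1 => x) ∈ D) ∧
        (∃ c : R, ∀ n : ℕ, (n : R) < c) ∧
        (∀ i : ℕ, ∃ D : Set (Fin 1 → R),
          (Set.univ : Set R).Definable
            (FirstOrder.Language.sum FirstOrder.Language.ring FirstOrder.Language.order) D ∧
          ∀ n : ℕ, Nat.pair i n ∈ E ↔ (fun _ : Fin 1 => (n : R)) ∈ D) ∧
        (∀ D : Set (Fin 1 → R),
          (Set.univ : Set R).Definable
            (FirstOrder.Language.sum FirstOrder.Language.ring FirstOrder.Language.order) D →
          {n : ℕ | (fun _ : Fin 1 => (n : R)) ∈ D} ∈ S) ∧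
        ∃ C ∈ S, ∀ Y ∈ S, ∃ D : Set (Fin 1 → R),
          (Set.univ : Set R).Definable
            (FirstOrder.Language.sum FirstOrder.Language.ring FirstOrder.Language.order) D ∧
          TuringReducible
            (fun n => Part.some (Y.indicator (fun _ => (1 : ℕ)) n))
            (fun n => Part.some
              (({m : ℕ | (Even m ∧ m / 2 ∈ ({k : ℕ | (fun _ : Fin 1 => (k : R)) ∈ D} : Set ℕ)) ∨
                (Odd m ∧ m / 2 ∈ C)} : Set ℕ).indicator (fun _ => (1 : ℕ)) n)) ∧
          TuringReducible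
            (fun n => Part.some
              (({k : ℕ | (fun _ : Fin 1 => (k : R)) ∈ D} : Set ℕ).indicator (fun _ => (1 : ℕ)) n))
            (fun n => Part.some
              (({m : ℕ | (Even m ∧ m / 2 ∈ Y) ∨ (Odd m ∧ m / 2 ∈ C)} : Set ℕ).indicator
                (fun _ => (1 : ℕ)) n)) :=
  fun S hne htr hjoin hproj E hE h0tr h0join h0proj =>
    main S hne htr hjoin hproj E hE h0tr h0join h0proj

end Pool.Agent.Results.MP_e5ffe1_lc.EnumeratedIdeals
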