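import Pool.Agent.Work.MP_e5ffe1_oj.Comput
import Pool.Agent.Work.MP_e5ffe1_gen.Main

/-! The theorem. -/

set_option autoImplicit false

namespace Pool.Agent.Work.MP_e5ffe1_oj

open Pool.Agent.Work.MP_e5ffe1_gen
open Pool.Agent.Work.MP_e5ffe1_h93 (le J LL st rs TR orc ch ch_of_mem ch_of_notMem le_iff le_refl'
  le_trans' le_J_left le_J_right)
open Encodable Cardinal

theorem col_le (E : Set ℕ) (i : ℕ) : le (col E i) E := by
  rw [le_iff]
  have h1 : TR (orc E) (fun n => Nat.pair i n) := TR_of_computable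
    (Primrec₂.natPair.comp (Primrec.const i) Primrec.id).to_comp
  have h2 : TR (orc E) (ch E) := Pool.Agent.Work.MP_e5ffe1_h93.orc_self E
  refine (h2.comp h1).of_eq (fun n => ?_)
  by_cases h : Nat.pair i n ∈ E
  · rw [ch_of_mem h, ch_of_mem (show n ∈ col E i from h)]
  · rw [ch_of_notMem h, ch_of_notMem (show n ∉ col E i from h)]

theorem main (S : Set (Set ℕ)) (hne : S.Nonempty) (htr : ∀ X ∈ S, ∀ Y, le Y X → Y ∈ S)
    (hjoin : ∀ X ∈ S, ∀ Y ∈ S, J X Y ∈ S) (hproj : ∀ X ∈ S, {m | ∃ n, Nat.pair m n ∈ X} ∈ S)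
    (E : Set ℕ) (hE : E ∈ S) (h0tr : ∀ (i : ℕ) (Y : Set ℕ), le Y (col E i) → ∃ k, Y = col E k)
    (h0join : ∀ i j : ℕ, ∃ k, J (col E i) (col E j) = col E k)
    (h0proj : ∀ i : ℕ, ∃ k, {m | ∃ n, Nat.pair m n ∈ col E i} = col E k) :
    ∃ (R : Type) (_ : CommRing R) (_ : LinearOrder R) (_ : IsStrictOrderedRing R)
      (_ : FirstOrder.Ring.CompatibleRing R)
      (_ : FirstOrder.Language.order.Structure R)
      (_ : FirstOrder.Language.OrderedStructure FirstOrder.Language.order R),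
      (∀ x : R, 0 < x → 1 ≤ x) ∧
      (∀ D : Set (Fin 1 → R), (Set.univ : Set R).Definable LL D →
        (fun _ : Fin 1 => (0 : R)) ∈ D →
        (∀ x : R, 0 ≤ x → (fun _ : Fin 1 => x) ∈ D → (fun _ : Fin 1 => x + 1) ∈ D) →
        ∀ x : R, 0 ≤ x → (fun _ : Fin 1 => x) ∈ D) ∧
      (∃ c : R, ∀ n : ℕ, (n : R) < c) ∧
      (∀ i : ℕ, ∃ D : Set (Fin 1 → R), (Set.univ : Set R).Definable LL D ∧
        ∀ n : ℕ, n ∈ col E i ↔ (fun _ : Fin 1 => (n : R)) ∈ D) ∧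
      (∀ D : Set (Fin 1 → R), (Set.univ : Set R).Definable LL D →
        {n : ℕ | (fun _ : Fin 1 => (n : R)) ∈ D} ∈ S) ∧
      ∃ C ∈ S, ∀ Y ∈ S, ∃ D : Set (Fin 1 → R), (Set.univ : Set R).Definable LL D ∧
        le Y (J {n : ℕ | (fun _ : Fin 1 => (n : R)) ∈ D} C) ∧
        le {n : ℕ | (fun _ : Fin 1 => (n : R)) ∈ D} (J Y C) := by
  classical
  have hS : Cl S := ⟨⟨hne, htr, hjoin⟩, hproj⟩
  have hS' : Idl S := hS.toIdl
  -- the code of the tree
  obtain ⟨C, hC, hC'⟩ := sq_PS hS hE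
  -- the enumerated family
  let S0 : Set (Set ℕ) := {Z | ∃ i, Z = col E i}
  have hcount : S0.Countable := by
    have h : S0 = Set.range (col E) := by
      ext Z
      exact ⟨fun ⟨i, hi⟩ => ⟨i, hi.symm⟩, fun ⟨i, hi⟩ => ⟨i, hi.symm⟩⟩
    rw [h]
    exact Set.countable_range _
  have hcard : #S0 ≤ ℵ₁ := le_trans (Set.Countable.le_aleph0 hcount)
    (by
      have := Cardinal.aleph0_le_aleph 1
      exact this)
  let X : Set (ℕ → Bool) := {x | st x ∈ S}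
  obtain ⟨R, i1, i2, i3, i4, i5, i6, h1, h2, h3, h4⟩ := theoremK S0 ⟨_, 0, rfl⟩
    (by
      rintro _ ⟨i, rfl⟩ Y hY
      exact h0tr i Y hY)
    (by
      rintro _ ⟨i, rfl⟩ _ ⟨j, rfl⟩
      exact h0join i j)
    (by
      rintro _ ⟨i, rfl⟩
      exact h0proj i) hcard (gg E '' X) (mutgen E X)
  have hS0 : S0 ⊆ S := by
    rintro _ ⟨i, rfl⟩
    exact htr E hE _ (col_le E i)
  have hG : ∀ g ∈ gg E '' X, {n | g n = true} ∈ S := by
    rintro _ ⟨x, hx, rfl⟩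
    exact gg_mem hS' hC hC' hx
  refine ⟨R, i1, i2, i3, i4, i5, i6, h1, h2, h3, ?_, ?_, C, hC, ?_⟩
  · intro i
    exact (h4 (col E i)).1 (fun T hT _ _ _ => hT ⟨i, rfl⟩)
  · intro D hD
    exact (h4 _).2 ⟨D, hD, fun _ => Iff.rfl⟩ S hS0 hG htr hjoin
  · intro Y hY
    let x : ℕ → Bool := fun n => decide (n ∈ Y)
    have hxY : st x = Y := by
      ext n
      simp [st, x]
    have hxX : x ∈ X := by
      change st x ∈ S
      rw [hxY]
      exact hY
    obtain ⟨D, hD, hD'⟩ := (h4 (st (gg E x))).1 (fun T _ hT _ _ => hT (gg E x) ⟨x, hxX, rfl⟩)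
    refine ⟨D, hD, ?_⟩
    have h5 : {n : ℕ | (fun _ : Fin 1 => (n : R)) ∈ D} = st (gg E x) := by
      ext n
      exact (hD' n).symm
    rw [h5]
    have h6 := mem_of_gg (idl_cone (J (st (gg E x)) C)) (le_J_right (st (gg E x)) C) hC'
      (x := x) (le_J_left (st (gg E x)) C)
    rw [hxY] at h6
    have h7 := gg_mem (idl_cone (J Y C)) (le_J_right Y C) hC' (x := x)
      (by rw [hxY]; exact le_J_left Y C)
    exact ⟨h6, h7⟩

end Pool.Agent.Work.MP_e5ffe1_oj
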