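import Pool.Agent.Work.MP_e5ffe1_oj.Defn

/-! The branches of the tree. -/

set_option autoImplicit false

namespace Pool.Agent.Work.MP_e5ffe1_oj

open Pool.Agent.Work.MP_e5ffe1_gen
open Pool.Agent.Work.MP_e5ffe1_h93 (le J st rs rs_inj)
open Encodable

variable (E : Set ℕ)

/-- the node of the branch `x` at the level `n` -/
noncomputable def nd (x : ℕ → Bool) (n : ℕ) : Str := nod (sq E n) (rs x n)

theorem rs_lt (x : ℕ → Bool) (n : ℕ) : rs x n < 2 ^ n := by
  induction n with
  | zero => exact Nat.one_pos
  | succ n ih =>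
    have h : rs x (n + 1) = 2 * rs x n + (if x n then 1 else 0) := rfl
    rw [h, pow_succ]
    split_ifs <;> omega

theorem nd_succ (x : ℕ → Bool) (n : ℕ) : nd E x n ++ [x n] <+: nd E x (n + 1) := by
  have h1 := (sq_succ E n).1.1.2 (rs x n) (by rw [sq_length]; exact rs_lt x n)
  have h : rs x (n + 1) = 2 * rs x n + (if x n then 1 else 0) := rfl
  unfold nd
  rw [h]
  cases hx : x n with
  | true => exact h1.2
  | false => exact h1.1

theorem nd_mono (x : ℕ → Bool) {n m : ℕ} (h : n ≤ m) : nd E x n <+: nd E x m := by
  induction m, h using Nat.le_induction with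
  | base => exact List.prefix_rfl
  | succ m _ ih => exact ih.trans ((List.prefix_append _ _).trans (nd_succ E x m))

theorem le_nd (x : ℕ → Bool) (n : ℕ) : n ≤ (nd E x n).length := by
  induction n with
  | zero => exact Nat.zero_le _
  | succ n ih =>
    have h := (nd_succ E x n).length_le
    rw [List.length_append, List.length_singleton] at h
    omega

/-- the branch -/
noncomputable def gg (x : ℕ → Bool) (j : ℕ) : Bool := (nd E x (j + 1)).getD j false

theorem pre_getD {p q : Str} (h : p <+: q) {j : ℕ} (hj : j < p.length) :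
    q.getD j false = p.getD j false := by
  obtain ⟨r, rfl⟩ := h
  exact List.getD_append _ _ _ _ hj

theorem nd_getD (x : ℕ → Bool) (n j : ℕ) (hj : j < (nd E x n).length) :
    (nd E x n).getD j false = gg E x j := by
  have h1 := nd_mono E x (le_max_left n (j + 1))
  have h2 := nd_mono E x (le_max_right n (j + 1))
  unfold gg
  rw [← pre_getD h1 hj, ← pre_getD h2 (lt_of_lt_of_le (Nat.lt_succ_self j) (le_nd E x (j + 1)))]

theorem pre_of {p : Str} {g : ℕ → Bool} (h : ∀ j < p.length, p.getD j false = g j) : pre p g := by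
  unfold pre
  apply List.ext_getElem
  · rw [List.length_map, List.length_range]
  · intro j h1 h2
    rw [List.getElem_map, List.getElem_range, ← h j h1, List.getD_eq_getElem _ _ h1]

theorem pre_nd (x : ℕ → Bool) {p : Str} (n : ℕ) (hp : p <+: nd E x n) : pre p (gg E x) := by
  apply pre_of
  intro j hj
  rw [← nd_getD E x n j (lt_of_lt_of_le hj hp.length_le), pre_getD hp hj]

/-- nodes of different branches are incompatible -/
theorem nd_inj {x y : ℕ → Bool} {g : ℕ → Bool} (n : ℕ)
    (hx : ∀ j < (nd E x n).length, (nd E x n).getD j false = g j)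
    (hy : ∀ j < (nd E y n).length, (nd E y n).getD j false = g j) : ∀ j < n, x j = y j := by
  have key : ∀ m ≤ n, ∀ j < m, x j = y j := by
    intro m
    induction m with
    | zero => exact fun _ j hj => absurd hj (Nat.not_lt_zero j)
    | succ m ih =>
      intro hm j hj
      have ih' := ih (by omega)
      rcases Nat.lt_succ_iff_lt_or_eq.1 hj with h | h
      · exact ih' j h
      · subst h
        have hrs : rs x j = rs y j := by
          clear hj hm ih
          induction j with
          | zero => rfl
          | succ j ihj =>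
            have e1 : rs x (j + 1) = 2 * rs x j + (if x j then 1 else 0) := rfl
            have e2 : rs y (j + 1) = 2 * rs y j + (if y j then 1 else 0) := rfl
            rw [e1, e2, ihj (fun i hi => ih' i (by omega)), ih' j (Nat.lt_succ_self j)]
        have hnd : nd E x j = nd E y j := by
          unfold nd
          rw [hrs]
        have h1 := (nd_succ E x j).trans (nd_mono E x hm)
        have h2 := (nd_succ E y j).trans (nd_mono E y hm)
        have hl : (nd E x j).length < (nd E x j ++ [x j]).length := by
          rw [List.length_append, List.length_singleton]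
          omega
        have hl2 : (nd E y j).length < (nd E y j ++ [y j]).length := by
          rw [List.length_append, List.length_singleton]
          omega
        have a1 : (nd E x j ++ [x j]).getD (nd E x j).length false = x j := by
          rw [List.getD_append_right _ _ _ _ le_rfl, Nat.sub_self]
          rfl
        have a2 : (nd E y j ++ [y j]).getD (nd E y j).length false = y j := by
          rw [List.getD_append_right _ _ _ _ le_rfl, Nat.sub_self]
          rfl
        have b1 := hx _ (lt_of_lt_of_le hl h1.length_le)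
        rw [pre_getD h1 hl, a1] at b1
        have b2 := hy _ (lt_of_lt_of_le hl2 h2.length_le)
        rw [pre_getD h2 hl2, a2] at b2
        rw [b1, b2, hnd]
  exact key n le_rfl

theorem gg_inj {x y : ℕ → Bool} (h : gg E x = gg E y) : x = y := by
  funext j
  refine nd_inj E (g := gg E x) (j + 1) (fun i hi => nd_getD E x _ i hi)
    (fun i hi => ?_) j (Nat.lt_succ_self j)
  rw [h]
  exact nd_getD E y _ i hi

theorem col_pair (i : ℕ) (ν : List Str) : encode ν ∈ col E i ↔ Nat.pair i (encode ν) ∈ E := Iff.rfl

/-- a level which separates finitely many branches -/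
theorem sep (ξ : List (ℕ → Bool)) (hξ : ξ.Nodup) : ∃ n0, ∀ n ≥ n0, (ξ.map (fun x => rs x n)).Nodup := by
  induction ξ with
  | nil => exact ⟨0, fun _ _ => List.nodup_nil⟩
  | cons x ξ ih =>
    rw [List.nodup_cons] at hξ
    obtain ⟨n0, h0⟩ := ih hξ.2
    have h1 : ∀ y ∈ ξ, ∃ j, x j ≠ y j := by
      intro y hy
      by_contra hcon
      push Not at hcon
      exact hξ.1 ((funext hcon : x = y) ▸ hy)
    have h2 : ∃ m, ∀ y ∈ ξ, ∃ j < m, x j ≠ y j := by
      clear ih h0 hξ
      induction ξ with
      | nil => exact ⟨0, fun y hy => absurd hy (by simp)⟩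
      | cons z ξ ih =>
        obtain ⟨m, hm⟩ := ih (fun y hy => h1 y (by simp [hy]))
        obtain ⟨j, hj⟩ := h1 z (by simp)
        refine ⟨max m (j + 1), fun y hy => ?_⟩
        rcases List.mem_cons.1 hy with h | h
        · exact ⟨j, lt_of_lt_of_le (Nat.lt_succ_self j) (le_max_right _ _), h ▸ hj⟩
        · obtain ⟨i, hi, hi'⟩ := hm y h
          exact ⟨i, lt_of_lt_of_le hi (le_max_left _ _), hi'⟩
    obtain ⟨m, hm⟩ := h2
    refine ⟨max n0 m, fun n hn => ?_⟩
    rw [List.map_cons, List.nodup_cons]
    refine ⟨?_, h0 n (le_trans (le_max_left _ _) hn)⟩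
    intro h
    obtain ⟨y, hy, hyx⟩ := List.mem_map.1 h
    obtain ⟨j, hj, hne⟩ := hm y hy
    exact hne (rs_inj n hyx.symm j (lt_of_lt_of_le hj (le_trans (le_max_right _ _) hn)))

/-- the branches are mutually generic -/
theorem mutgen (X : Set (ℕ → Bool)) : MutGen {Z | ∃ i, Z = col E i} (gg E '' X) := by
  classical
  intro γ hγ hG D hD hden
  obtain ⟨i, rfl⟩ := hD
  have h1 : ∃ ξ : List (ℕ → Bool), ξ.map (gg E) = γ := by
    clear hγ hden
    induction γ with
    | nil => exact ⟨[], rfl⟩
    | cons g γ ih =>
      obtain ⟨ξ, hξ⟩ := ih (fun g' hg' => hG g' (by simp [hg']))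
      obtain ⟨x, _, hx⟩ := hG g (by simp)
      exact ⟨x :: ξ, by rw [List.map_cons, hξ, hx]⟩
  obtain ⟨ξ, rfl⟩ := h1
  have hξ : ξ.Nodup := List.Nodup.of_map _ hγ
  obtain ⟨n0, hn0⟩ := sep ξ hξ
  let n := max n0 i
  have hnod := hn0 (n + 1) (le_trans (le_max_left n0 i) (Nat.le_succ n))
  have hreq := (sq_succ E n).1.2 i (ξ.map (fun x => rs x (n + 1))) (le_max_right _ _) hnod
    (by
      intro j hj
      obtain ⟨x, _, rfl⟩ := List.mem_map.1 hj
      rw [sq_length]
      exact rs_lt x (n + 1))
    (by
      intro μ hμ
      rw [List.length_map] at hμ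
      exact hden μ (by rw [List.length_map]; exact hμ))
  obtain ⟨ν, h2, h3⟩ := hreq
  refine ⟨ν, ?_, h3⟩
  rw [List.map_map, List.forall₂_map_right_iff] at h2
  rw [List.forall₂_map_right_iff]
  clear h3 hnod hn0 hξ hden hG hγ
  induction h2 with
  | nil => exact List.Forall₂.nil
  | cons hab _ ih => exact List.Forall₂.cons (pre_nd E _ (n + 1) hab) ih

end Pool.Agent.Work.MP_e5ffe1_oj
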