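import Pool.Agent.Work.MP_e5ffe1_oj.Base

/-! The tree of nodes. -/

set_option autoImplicit false

namespace Pool.Agent.Work.MP_e5ffe1_oj

open Pool.Agent.Work.MP_e5ffe1_gen
open Pool.Agent.Work.MP_e5ffe1_h93 (le J st rs rs_inj)
open Encodable

/-- a column of a set -/
def col (E : Set ℕ) (i : ℕ) : Set ℕ := {m | Nat.pair i m ∈ E}

/-- the node number `i` -/
def nod (L : List Str) (i : ℕ) : Str := L.getD i []

/-- the column number `i` of `E` is dense for the tuples of length `k` -/
def Den (E : Set ℕ) (i k : ℕ) : Prop :=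
  ∀ μ : List Str, μ.length = k →
    ∃ ν : List Str, List.Forall₂ (fun p q => p <+: q) μ ν ∧ Nat.pair i (encode ν) ∈ E

/-- the nodes with numbers in `t` meet the column number `i` -/
def Met (E : Set ℕ) (i : ℕ) (t : List ℕ) (L : List Str) : Prop :=
  ∃ ν : List Str, List.Forall₂ (fun p q => p <+: q) ν (t.map (nod L)) ∧ Nat.pair i (encode ν) ∈ E

/-- all requirements with columns `≤ n` -/
def Req (E : Set ℕ) (n : ℕ) (L : List Str) : Prop :=
  ∀ (i : ℕ) (t : List ℕ), i ≤ n → t.Nodup → (∀ j ∈ t, j < L.length) → Den E i t.length →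
    Met E i t L

/-- `L'` splits the nodes of `L` -/
def Spl (L L' : List Str) : Prop :=
  L'.length = 2 * L.length ∧ ∀ i < L.length,
    nod L i ++ [false] <+: nod L' (2 * i) ∧ nod L i ++ [true] <+: nod L' (2 * i + 1)

def Nx (E : Set ℕ) (n : ℕ) (L L' : List Str) : Prop := Spl L L' ∧ Req E n L'

theorem nod_map {m : ℕ} (f : ℕ → Str) {a : ℕ} (ha : a < m) :
    nod ((List.range m).map f) a = f a := by
  unfold nod
  rw [List.getD_eq_getElem?_getD, List.getElem?_map, List.getElem?_range ha]
  rfl

theorem met_mono {E : Set ℕ} {i : ℕ} {t : List ℕ} {L1 L2 : List Str}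
    (h : ∀ j ∈ t, nod L1 j <+: nod L2 j) (hm : Met E i t L1) : Met E i t L2 := by
  obtain ⟨ν, h6, h7⟩ := hm
  refine ⟨ν, ?_, h7⟩
  rw [List.forall₂_map_right_iff] at h6 ⊢
  clear h7
  induction h6 with
  | nil => exact List.Forall₂.nil
  | cons hab _ ih =>
    exact List.Forall₂.cons (hab.trans (h _ (by simp))) (ih (fun j hj => h j (by simp [hj])))

/-- one requirement can be met -/
theorem meet1 (E : Set ℕ) (m : ℕ) (i : ℕ) (t : List ℕ) (L1 : List Str) (h1 : L1.length = m)
    (hn : t.Nodup) (hl : ∀ j ∈ t, j < m) (hd : Den E i t.length) :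
    ∃ L2 : List Str, L2.length = m ∧ (∀ a < m, nod L1 a <+: nod L2 a) ∧ Met E i t L2 := by
  classical
  obtain ⟨ν, h2, h3⟩ := hd (t.map (nod L1)) (List.length_map _)
  have hlen : t.length = ν.length := by
    have := h2.length_eq
    rwa [List.length_map] at this
  let f : ℕ → Str := fun a => if a ∈ t then ν.getD (t.idxOf a) [] else nod L1 a
  refine ⟨(List.range m).map f, by rw [List.length_map, List.length_range], ?_, ν, ?_, h3⟩
  · intro a ha
    rw [nod_map f ha]
    by_cases hat : a ∈ t
    · have h4 : t.idxOf a < t.length := List.idxOf_lt_length_of_mem hat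
      have h5 : t.idxOf a < ν.length := hlen ▸ h4
      have h6 := h2.get (i := t.idxOf a) (by rw [List.length_map]; exact h4) h5
      simp only [List.get_eq_getElem, List.getElem_map, List.getElem_idxOf h4] at h6
      simp only [f, if_pos hat]
      rw [List.getD_eq_getElem _ _ h5]
      exact h6
    · simp only [f, if_neg hat]
      exact List.prefix_rfl
  · have h4 : t.map (nod ((List.range m).map f)) = ν := by
      apply List.ext_getElem
      · rw [List.length_map, hlen]
      · intro r hr1 hr2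
        rw [List.length_map] at hr1
        rw [List.getElem_map, nod_map f (hl _ (List.getElem_mem hr1))]
        simp only [f, if_pos (List.getElem_mem hr1)]
        rw [hn.idxOf_getElem r hr1, List.getD_eq_getElem _ _ hr2]
    rw [h4]
    exact List.forall₂_same.2 (fun _ _ => List.prefix_rfl)

/-- finitely many requirements can be met -/
theorem meet (E : Set ℕ) (m : ℕ) (Q : List (ℕ × List ℕ)) : ∀ L0 : List Str, L0.length = m →
    ∃ L' : List Str, L'.length = m ∧ (∀ a < m, nod L0 a <+: nod L' a) ∧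
      ∀ x ∈ Q, x.2.Nodup → (∀ j ∈ x.2, j < m) → Den E x.1 x.2.length → Met E x.1 x.2 L' := by
  induction Q with
  | nil => exact fun L0 h => ⟨L0, h, fun a _ => List.prefix_rfl, fun x hx => absurd hx (by simp)⟩
  | cons y Q ih =>
    intro L0 hL0
    obtain ⟨L1, h1, h2, h3⟩ := ih L0 hL0
    by_cases hc : y.2.Nodup ∧ (∀ j ∈ y.2, j < m) ∧ Den E y.1 y.2.length
    · obtain ⟨L2, h4, h5, h6⟩ := meet1 E m y.1 y.2 L1 h1 hc.1 hc.2.1 hc.2.2
      refine ⟨L2, h4, fun a ha => (h2 a ha).trans (h5 a ha), ?_⟩
      intro x hx a1 a2 a3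
      rcases List.mem_cons.1 hx with h | h
      · rw [h]
        exact h6
      · exact met_mono (fun j hj => h5 j (a2 j hj)) (h3 x h a1 a2 a3)
    · refine ⟨L1, h1, h2, ?_⟩
      intro x hx a1 a2 a3
      rcases List.mem_cons.1 hx with h | h
      · rw [h] at a1 a2 a3
        exact absurd ⟨a1, a2, a3⟩ hc
      · exact h3 x h a1 a2 a3

theorem fin_tuples (m : ℕ) : {t : List ℕ | t.Nodup ∧ ∀ j ∈ t, j < m}.Finite := by
  have h1 : ((List.map (Fin.val : Fin m → ℕ)) '' {l : List (Fin m) | l.length ≤ m}).Finite :=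
    Set.Finite.image _ (List.finite_length_le (Fin m) m)
  refine h1.subset ?_
  rintro t ⟨hn, hl⟩
  have h2 : (t.attach.map (fun j : {j // j ∈ t} => (⟨j.1, hl j.1 j.2⟩ : Fin m))).map Fin.val = t := by
    rw [List.map_map]
    have : (Fin.val ∘ fun j : {j // j ∈ t} => (⟨j.1, hl j.1 j.2⟩ : Fin m)) = Subtype.val := rfl
    rw [this, List.attach_map_subtype_val]
  refine ⟨_, ?_, h2⟩
  have h3 : (t.attach.map (fun j : {j // j ∈ t} => (⟨j.1, hl j.1 j.2⟩ : Fin m))).Nodup := by
    rw [← h2] at hn
    exact List.Nodup.of_map _ hn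
  have h4 := h3.length_le_card
  rw [Fintype.card_fin] at h4
  exact h4

theorem nx_exists (E : Set ℕ) (n : ℕ) (L : List Str) : ∃ L', Nx E n L L' := by
  classical
  let f : ℕ → Str := fun a => nod L (a / 2) ++ [decide (a % 2 = 1)]
  let L0 : List Str := (List.range (2 * L.length)).map f
  have hL0 : L0.length = 2 * L.length := by
    simp only [L0]
    rw [List.length_map, List.length_range]
  let Q : List (ℕ × List ℕ) :=
    ((Finset.range (n + 1)) ×ˢ (fin_tuples (2 * L.length)).toFinset).toList
  obtain ⟨L', h1, h2, h3⟩ := meet E (2 * L.length) Q L0 hL0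
  refine ⟨L', ⟨h1, ?_⟩, ?_⟩
  · intro i hi
    constructor
    · have h4 := h2 (2 * i) (by omega)
      have h5 : nod L0 (2 * i) = nod L i ++ [false] := by
        simp only [L0]
        rw [nod_map f (by omega)]
        simp only [f]
        have e1 : 2 * i / 2 = i := by omega
        have e2 : 2 * i % 2 = 0 := by omega
        rw [e1, e2]
        rfl
      rwa [h5] at h4
    · have h4 := h2 (2 * i + 1) (by omega)
      have h5 : nod L0 (2 * i + 1) = nod L i ++ [true] := by
        simp only [L0]
        rw [nod_map f (by omega)]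
        simp only [f]
        have e1 : (2 * i + 1) / 2 = i := by omega
        have e2 : (2 * i + 1) % 2 = 1 := by omega
        rw [e1, e2]
        rfl
      rwa [h5] at h4
  · intro i t hi hn hl hd
    refine h3 (i, t) ?_ hn (fun j hj => h1 ▸ hl j hj) hd
    simp only [Q, Finset.mem_toList, Finset.mem_product, Finset.mem_range, Set.Finite.mem_toFinset]
    exact ⟨Nat.lt_succ_of_le hi, hn, fun j hj => h1 ▸ hl j hj⟩

/-- the least extension -/
def N1 (E : Set ℕ) (n : ℕ) (L L' : List Str) : Prop :=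
  Nx E n L L' ∧ ∀ L'', Nx E n L L'' → encode L' ≤ encode L''

theorem n1_exists (E : Set ℕ) (n : ℕ) (L : List Str) : ∃ L', N1 E n L L' := by
  classical
  have h : ∃ c : ℕ, ∃ L' : List Str, encode L' = c ∧ Nx E n L L' := by
    obtain ⟨L', h⟩ := nx_exists E n L
    exact ⟨_, L', rfl, h⟩
  obtain ⟨L', h1, h2⟩ := Nat.find_spec h
  refine ⟨L', h2, fun L'' h3 => ?_⟩
  rw [h1]
  exact Nat.find_min' h ⟨L'', rfl, h3⟩

theorem n1_unique {E : Set ℕ} {n : ℕ} {L L1 L2 : List Str} (h1 : N1 E n L L1) (h2 : N1 E n L L2) :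
    L1 = L2 := Encodable.encode_injective (le_antisymm (h1.2 _ h2.1) (h2.2 _ h1.1))

/-- the levels of the tree -/
noncomputable def sq (E : Set ℕ) : ℕ → List Str
  | 0 => [[]]
  | n + 1 => Classical.choose (n1_exists E n (sq E n))

theorem sq_succ (E : Set ℕ) (n : ℕ) : N1 E n (sq E n) (sq E (n + 1)) :=
  Classical.choose_spec (n1_exists E n (sq E n))

theorem sq_length (E : Set ℕ) (n : ℕ) : (sq E n).length = 2 ^ n := by
  induction n with
  | zero => rfl
  | succ n ih => rw [(sq_succ E n).1.1.1, ih, pow_succ]; ring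

theorem sq_iff (E : Set ℕ) (n : ℕ) (L : List Str) : L = sq E n ↔
    ∃ s : List (List Str), s.length = n + 1 ∧ s.getD 0 [] = [[]] ∧ s.getD n [] = L ∧
      ∀ m < n, N1 E m (s.getD m []) (s.getD (m + 1) []) := by
  constructor
  · rintro rfl
    have h : ∀ m ≤ n, ((List.range (n + 1)).map (sq E)).getD m [] = sq E m := by
      intro m hm
      rw [List.getD_eq_getElem?_getD, List.getElem?_map,
        List.getElem?_range (Nat.lt_succ_of_le hm)]
      rfl
    refine ⟨(List.range (n + 1)).map (sq E), by simp, ?_, h n le_rfl, ?_⟩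
    · rw [h 0 (Nat.zero_le _)]
      rfl
    · intro m hm
      rw [h m (by omega), h (m + 1) (by omega)]
      exact sq_succ E m
  · rintro ⟨s, _, h0, h1, h2⟩
    have h : ∀ m ≤ n, s.getD m [] = sq E m := by
      intro m
      induction m with
      | zero => exact fun _ => h0
      | succ m ih =>
        intro hm
        have h3 := h2 m (by omega)
        rw [ih (by omega)] at h3
        exact n1_unique h3 (sq_succ E m)
    rw [← h1, h n le_rfl]

end Pool.Agent.Work.MP_e5ffe1_oj
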